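import Pool.Agent.N562.AC.EXP
import Pool.Agent.N929.EG.Size

/-!
# Analytic continuation for functionals that depend on the occupied slots (systems of local moves)
-/

set_option autoImplicit false
set_option linter.unusedVariables false

namespace Run7.h106.AG

open Finset Filter Topology
open Pool.Agent.N929.EG Pool.Agent.N929.AC
open Pool.Agent.N562.AC (mem_Co)
open scoped Classical

noncomputable section

variable {α σ : Type} {Y : TS α σ}

/-- the generating function of the objects of the classes of `Co` -/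
def PG (Y : TS α σ) (fl : α → Finset σ → α) (F : α → ℝ) (L : Finset σ) (N : ℕ) (z : ℂ) : ℂ :=
  ∑ w ∈ Co Y L N, ∑ U ∈ (Sl Y L w).powerset, (F (fl w U) : ℂ) * z ^ (Y.len w + Y.s * U.card)

/-- the objects of the classes of `Co` -/
def TG (Y : TS α σ) (fl : α → Finset σ → α) (L : Finset σ) (N : ℕ) : Finset α :=
  ((Co Y L N).sigma (fun w => (Sl Y L w).powerset)).image (fun x => fl x.1 x.2)

variable {L : Finset σ} {st : α → α} {fl : α → Finset σ → α} {N : ℕ}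

theorem fl_len (h : Fill Y L st fl) {w : α} {U : Finset σ} (hw : Em Y L w) (hU : U ⊆ Sl Y L w) :
    Y.len (fl w U) = Y.len w + Y.s * U.card := Y.len_K _ _ (h.fl_K w U hw hU)

theorem TG_mem (h : Fill Y L st fl) {v : α} (hv : v ∈ TG Y fl L N) : v ∈ Y.K (Y.len v) := by
  unfold TG at hv
  rw [mem_image] at hv
  obtain ⟨⟨w, U⟩, hx, rfl⟩ := hv
  rw [mem_sigma, mem_powerset] at hx
  simp only at hx ⊢
  have hw := (mem_Co.1 hx.1).1
  rw [fl_len h hw hx.2]
  exact h.fl_K w U hw hx.2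

theorem TG_sub (h : Fill Y L st fl) {n : ℕ} (hn : n ≤ N) : Y.K n ⊆ TG Y fl L N := by
  intro v hv
  have h0 := Y.len_K n v hv
  have hv' : v ∈ Y.K (Y.len v) := by rw [h0]; exact hv
  unfold TG
  rw [mem_image]
  refine ⟨⟨st v, Oc Y L v⟩, ?_, h.fl_st v hv'⟩
  rw [mem_sigma, mem_powerset]
  simp only
  refine ⟨mem_Co.2 ⟨h.st_em v hv', ?_⟩, ?_⟩
  · have := h.st_len v hv'
    omega
  · rw [h.st_sl v hv']
    intro q hq
    rw [mem_Oc] at hq
    rw [mem_Sl]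
    exact ⟨hq.1, Or.inr hq.2⟩

theorem sumTG (h : Fill Y L st fl) {R : Type} [AddCommMonoid R] (g : α → R) :
    ∑ v ∈ TG Y fl L N, g v = ∑ w ∈ Co Y L N, ∑ U ∈ (Sl Y L w).powerset, g (fl w U) := by
  unfold TG
  rw [sum_image]
  · rw [sum_sigma]
  · rintro ⟨w, U⟩ hx ⟨w', U'⟩ hx' hxx
    rw [mem_coe, mem_sigma, mem_powerset] at hx hx'
    simp only at hx hx' hxx
    have hw := (mem_Co.1 hx.1).1
    have hw' := (mem_Co.1 hx'.1).1
    have e1 : w = w' := by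
      rw [← h.st_fl w U hw hx.2, ← h.st_fl w' U' hw' hx'.2, hxx]
    have e2 : U = U' := by
      rw [← h.fl_oc w U hw hx.2, ← h.fl_oc w' U' hw' hx'.2, hxx]
    subst e1
    subst e2
    rfl

theorem PG_eq (h : Fill Y L st fl) (F : α → ℝ) (z : ℂ) :
    PG Y fl F L N z = ∑ v ∈ TG Y fl L N, (F v : ℂ) * z ^ Y.len v := by
  rw [sumTG h]
  unfold PG
  refine sum_congr rfl fun w hw => sum_congr rfl fun U hU => ?_
  rw [mem_powerset] at hU
  rw [fl_len h (mem_Co.1 hw).1 hU]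

theorem pow_expand {R : Type} [CommSemiring R] (y : R) (E : Finset σ) :
    ∑ U ∈ E.powerset, y ^ U.card = (1 + y) ^ E.card := by
  have := Finset.sum_pow_mul_eq_add_pow y 1 E
  simp only [one_pow, mul_one] at this
  rw [this, add_comm]

theorem MG_eq (h : Fill Y L st fl) (M : α → ℝ) (x : ℝ) :
    ∑ w ∈ Co Y L N, M w * x ^ Y.len w * (1 + x ^ Y.s) ^ (Sl Y L w).card =
      ∑ v ∈ TG Y fl L N, M (st v) * x ^ Y.len v := by
  rw [sumTG h]
  refine sum_congr rfl fun w hw => ?_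
  rw [← pow_expand, mul_sum]
  refine sum_congr rfl fun U hU => ?_
  rw [mem_powerset] at hU
  rw [fl_len h (mem_Co.1 hw).1 hU, h.st_fl w U (mem_Co.1 hw).1 hU, pow_add, pow_mul]
  ring

/-- the bound for one class -/
theorem rp_bound {E : Finset σ} {Φ : Finset σ → ℝ} {M : ℝ} (h : Rp E Φ M) (y : ℂ)
    {b : ℝ} (hb : 1 ≤ b) (hy : ‖1 + y‖ ≤ b) :
    ‖∑ U ∈ E.powerset, (Φ U : ℂ) * y ^ U.card‖ ≤ M * b ^ E.card := by
  obtain ⟨v, h1, h2⟩ := h
  have e1 : ∑ U ∈ E.powerset, (Φ U : ℂ) * y ^ U.card =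
      ∑ T ∈ E.powerset, (v T : ℂ) * (1 + y) ^ (E \ T).card := by
    have e2 : ∀ U ∈ E.powerset, (Φ U : ℂ) * y ^ U.card =
        ∑ T ∈ E.powerset, if Disjoint T U then (v T : ℂ) * y ^ U.card else 0 := by
      intro U hU
      rw [h2 U (mem_powerset.1 hU)]
      push_cast
      rw [sum_mul]
      refine sum_congr rfl fun T _ => ?_
      split_ifs <;> simp
    rw [sum_congr rfl e2, sum_comm]
    refine sum_congr rfl fun T _ => ?_
    rw [← sum_filter, ← pow_expand, mul_sum]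
    refine sum_congr ?_ fun _ _ => rfl
    ext U
    rw [mem_filter, mem_powerset, mem_powerset, subset_sdiff]
    exact ⟨fun h => ⟨h.1, h.2.symm⟩, fun h => ⟨h.1, h.2.symm⟩⟩
  rw [e1]
  have hb0 : 0 ≤ b := by linarith
  calc ‖∑ T ∈ E.powerset, (v T : ℂ) * (1 + y) ^ (E \ T).card‖
      ≤ ∑ T ∈ E.powerset, ‖(v T : ℂ) * (1 + y) ^ (E \ T).card‖ := norm_sum_le _ _
    _ ≤ ∑ T ∈ E.powerset, |v T| * b ^ E.card := by
        refine sum_le_sum fun T _ => ?_
        rw [norm_mul, norm_pow, Complex.norm_real, Real.norm_eq_abs]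
        refine mul_le_mul_of_nonneg_left ?_ (abs_nonneg _)
        exact (pow_le_pow_left₀ (norm_nonneg _) hy _).trans
          (pow_le_pow_right₀ hb (card_le_card sdiff_subset))
    _ = (∑ T ∈ E.powerset, |v T|) * b ^ E.card := by rw [sum_mul]
    _ ≤ M * b ^ E.card := mul_le_mul_of_nonneg_right h1 (by positivity)

/-- grouping by the length -/
theorem grp (G : α → ℝ) (hG : ∀ n, ∀ w ∈ Y.K n, 0 ≤ G w) (b : ℕ → ℝ)
    (hb : ∀ n, aa Y G n ≤ b n) (S : Finset α) (M : ℕ)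
    (hS : ∀ w ∈ S, w ∈ Y.K (Y.len w) ∧ M ≤ Y.len w) (x : ℝ) (hx : 0 ≤ x)
    (hsum : Summable (fun n => b n * x ^ n)) :
    ∑ w ∈ S, G w * x ^ Y.len w ≤ ∑' n, b (n + M) * x ^ (n + M) := by
  have hs2 : Summable (fun n => b (n + M) * x ^ (n + M)) :=
    (summable_nat_add_iff (f := fun n => b n * x ^ n) M).2 hsum
  have haa : ∀ n, 0 ≤ aa Y G n := fun n => Finset.sum_nonneg (hG n)
  have hmap : ∀ w ∈ S, (Y.len w - M) ∈ S.image (fun w => Y.len w - M) := fun w hw =>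
    Finset.mem_image_of_mem _ hw
  calc ∑ w ∈ S, G w * x ^ Y.len w
      = ∑ k ∈ S.image (fun w => Y.len w - M), ∑ w ∈ S.filter (fun w => Y.len w - M = k),
          G w * x ^ Y.len w := (Finset.sum_fiberwise_of_maps_to hmap _).symm
    _ ≤ ∑ k ∈ S.image (fun w => Y.len w - M), b (k + M) * x ^ (k + M) := by
        refine Finset.sum_le_sum (fun k _ => ?_)
        have hlen : ∀ w ∈ S.filter (fun w => Y.len w - M = k), Y.len w = k + M ∧
            w ∈ Y.K (k + M) := by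
          intro w hw
          rw [Finset.mem_filter] at hw
          have h1 := hS w hw.1
          have h2 : Y.len w = k + M := by omega
          refine ⟨h2, ?_⟩
          rw [← h2]; exact h1.1
        refine le_trans ?_ (mul_le_mul_of_nonneg_right (hb (k + M)) (by positivity))
        unfold aa
        rw [Finset.sum_mul]
        calc ∑ w ∈ S.filter (fun w => Y.len w - M = k), G w * x ^ Y.len w
            = ∑ w ∈ S.filter (fun w => Y.len w - M = k), G w * x ^ (k + M) :=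
              Finset.sum_congr rfl (fun w hw => by rw [(hlen w hw).1])
          _ ≤ ∑ w ∈ Y.K (k + M), G w * x ^ (k + M) := by
              refine Finset.sum_le_sum_of_subset_of_nonneg (fun w hw => (hlen w hw).2) ?_
              intro w hw _
              exact mul_nonneg (hG _ w hw) (by positivity)
    _ ≤ ∑' n, b (n + M) * x ^ (n + M) :=
        hs2.sum_le_tsum _ (fun n _ => mul_nonneg ((haa _).trans (hb _)) (by positivity))

theorem norm_sum_le' (F : α → ℝ) (S : Finset α) (z : ℂ) :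
    ‖∑ w ∈ S, (F w : ℂ) * z ^ Y.len w‖ ≤ ∑ w ∈ S, |F w| * ‖z‖ ^ Y.len w := by
  refine (norm_sum_le _ _).trans (Finset.sum_le_sum (fun w hw => ?_))
  rw [norm_mul, norm_pow, Complex.norm_real, Real.norm_eq_abs]

/-- the bound inside the disc -/
theorem bnd1 (h : Fill Y L st fl) {F : α → ℝ} {b : ℕ → ℝ}
    (hb : ∀ n, ∑ w ∈ Y.K n, |F w| ≤ b n)
    (z : ℂ) (x : ℝ) (hx : 0 ≤ x) (hs : Summable (fun n => b n * x ^ n)) (hz : ‖z‖ ≤ x) :
    ‖PG Y fl F L N z‖ ≤ ∑' n, b n * x ^ n := by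
  have hTx : ∑ w ∈ TG Y fl L N, |F w| * x ^ Y.len w ≤ ∑' n, b n * x ^ n := by
    have := grp (fun w => |F w|) (fun _ _ _ => abs_nonneg _) b hb (TG Y fl L N) 0
      (fun w hw => ⟨TG_mem h hw, Nat.zero_le _⟩) x hx hs
    simpa only [Nat.add_zero] using this
  rw [PG_eq h]
  refine (norm_sum_le' F _ z).trans (le_trans (Finset.sum_le_sum (fun w hw => ?_)) hTx)
  exact mul_le_mul_of_nonneg_left (pow_le_pow_left₀ (norm_nonneg _) hz _) (abs_nonneg _)

/-- `PZ` is close to the generating function inside the disc of convergence -/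
theorem cnv (h : Fill Y L st fl) {F : α → ℝ} {b : ℕ → ℝ}
    (hb : ∀ n, ∑ w ∈ Y.K n, |F w| ≤ b n)
    (z : ℂ) (hs : Summable (fun n => b n * ‖z‖ ^ n)) :
    ‖PG Y fl F L N z - ∑ n ∈ range (N + 1), (aa Y F n : ℂ) * z ^ n‖ ≤
      ∑' n, b (n + (N + 1)) * ‖z‖ ^ (n + (N + 1)) := by
  have hlow : ∑ n ∈ range (N + 1), (aa Y F n : ℂ) * z ^ n =
      ∑ w ∈ (TG Y fl L N).filter (fun w => Y.len w ≤ N), (F w : ℂ) * z ^ Y.len w := by
    have hset : (TG Y fl L N).filter (fun w => Y.len w ≤ N) = (range (N + 1)).biUnion Y.K := by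
      ext w
      rw [Finset.mem_filter, Finset.mem_biUnion]
      constructor
      · rintro ⟨h1, h2⟩
        exact ⟨Y.len w, Finset.mem_range.2 (by omega), TG_mem h h1⟩
      · rintro ⟨m, hm, hw⟩
        rw [Finset.mem_range] at hm
        have := Y.len_K _ _ hw
        exact ⟨TG_sub h (by omega) hw, by omega⟩
    have hdisj : Set.PairwiseDisjoint (↑(range (N + 1)) : Set ℕ) Y.K := by
      intro m _ m' _ hne
      rw [Function.onFun, Finset.disjoint_left]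
      intro w hw hw'
      exact hne ((Y.len_K _ _ hw).symm.trans (Y.len_K _ _ hw'))
    rw [hset, Finset.sum_biUnion hdisj]
    refine Finset.sum_congr rfl (fun m _ => ?_)
    unfold aa
    push_cast
    rw [Finset.sum_mul]
    refine Finset.sum_congr rfl (fun w hw => ?_)
    rw [Y.len_K _ _ hw]
  rw [PG_eq h, hlow, ← Finset.sum_filter_add_sum_filter_not (TG Y fl L N) (fun w => Y.len w ≤ N),
    add_sub_cancel_left]
  refine (norm_sum_le' F _ z).trans ?_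
  refine grp (fun w => |F w|) (fun _ _ _ => abs_nonneg _) b hb _ (N + 1) (fun w hw => ?_) ‖z‖
    (norm_nonneg z) hs
  rw [Finset.mem_filter] at hw
  exact ⟨TG_mem h hw.1, by omega⟩

/-- the bound outside the disc -/
theorem bnd2 (h : Fill Y L st fl) {F M : α → ℝ} {b : ℕ → ℝ} {C₀ : ℝ}
    {p : ℕ} (hC₀ : 0 ≤ C₀) (hF : ∀ n, ∀ w ∈ Y.K n, |F w| ≤ C₀ * ((n : ℝ) + 1) ^ p)
    (hM : ∀ w, 0 ≤ M w)
    (hrep : ∀ w, Em Y L w → Rp (Sl Y L w) (fun U => F (fl w U)) (M w))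
    (hMs : ∀ n, ∑ w ∈ Y.K n, M (st w) ≤ b n) (z : ℂ) (x : ℝ) (hx : 0 ≤ x)
    (hs : Summable (fun n => b n * x ^ n)) (c₀ δ : ℝ) (hc₀ : 0 < c₀) (hc1 : c₀ ≤ 1) (hδ : 0 ≤ δ)
    (h1 : ‖z‖ ≤ x * Real.exp (c₀ * δ)) (h2 : ‖1 + z ^ Y.s‖ ≤ (1 + x ^ Y.s) * Real.exp (-δ))
    (h3 : 1 ≤ (1 + x ^ Y.s) * Real.exp (-δ)) :
    ‖PG Y fl F L N z‖ ≤ (∑' n, b n * x ^ n) +
      ∑ m ∈ range (N + 1), (((Y.K m).filter
        (fun w => ((Sl Y L w).card : ℝ) < c₀ * m)).card : ℝ) *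
        (C₀ * (((Y.s : ℝ) + 1) * ((m : ℝ) + 1)) ^ p * (‖z‖ * (1 + ‖z‖ ^ Y.s) ^ c₀) ^ m) := by
  set B : ℝ := ‖z‖ * (1 + ‖z‖ ^ Y.s) ^ c₀ with hB
  have hB0 : 0 ≤ B := by positivity
  have hCo : ∀ w ∈ Co Y L N, w ∈ Y.K (Y.len w) ∧ Y.len w ≤ N := fun w hw =>
    ⟨(mem_Co.1 hw).1.1, (mem_Co.1 hw).2⟩
  have hterm : ∀ w ∈ Co Y L N, ‖∑ U ∈ (Sl Y L w).powerset,
      (F (fl w U) : ℂ) * z ^ (Y.len w + Y.s * U.card)‖ ≤
      M w * x ^ Y.len w * (1 + x ^ Y.s) ^ (Sl Y L w).card +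
      (if ((Sl Y L w).card : ℝ) < c₀ * Y.len w then
        C₀ * (((Y.s : ℝ) + 1) * ((Y.len w : ℝ) + 1)) ^ p * B ^ Y.len w else 0) := by
    intro w hw
    have hwE := (mem_Co.1 hw).1
    have hx1 : 0 ≤ M w * x ^ Y.len w * (1 + x ^ Y.s) ^ (Sl Y L w).card :=
      mul_nonneg (mul_nonneg (hM w) (by positivity)) (by positivity)
    set l := Y.len w with hl
    set k := (Sl Y L w).card with hk
    have hsplit : ∑ U ∈ (Sl Y L w).powerset, (F (fl w U) : ℂ) * z ^ (l + Y.s * U.card) =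
        z ^ l * ∑ U ∈ (Sl Y L w).powerset, (F (fl w U) : ℂ) * (z ^ Y.s) ^ U.card := by
      rw [mul_sum]
      refine sum_congr rfl fun U _ => ?_
      rw [pow_add, pow_mul]
      ring
    split_ifs with hlt
    · have hsl : k ≤ l := by
        have h5 : (k : ℝ) < 1 * l := hlt.trans_le (mul_le_mul_of_nonneg_right hc1
          (Nat.cast_nonneg l))
        rw [one_mul] at h5
        exact_mod_cast h5.le
      have e0 : ‖∑ U ∈ (Sl Y L w).powerset, (F (fl w U) : ℂ) * (z ^ Y.s) ^ U.card‖ ≤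
          C₀ * (((Y.s : ℝ) + 1) * ((l : ℝ) + 1)) ^ p * (1 + ‖z‖ ^ Y.s) ^ k := by
        rw [← pow_expand, mul_sum]
        refine (norm_sum_le _ _).trans (sum_le_sum fun U hU => ?_)
        rw [mem_powerset] at hU
        have hUc := card_le_card hU
        have h4 := hF _ (fl w U) (h.fl_K w U hwE hU)
        rw [norm_mul, norm_pow, norm_pow, Complex.norm_real, Real.norm_eq_abs]
        refine mul_le_mul_of_nonneg_right (h4.trans ?_) (by positivity)
        refine mul_le_mul_of_nonneg_left (pow_le_pow_left₀ (by positivity) ?_ p) hC₀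
        have h5 : Y.len w + Y.s * U.card + 1 ≤ (Y.s + 1) * (l + 1) := by
          have h6 : Y.s * U.card ≤ Y.s * l := Nat.mul_le_mul_left _ (hUc.trans hsl)
          rw [← hl]
          nlinarith
        exact_mod_cast h5
      have hbase : 1 ≤ 1 + ‖z‖ ^ Y.s := by
        have : 0 ≤ ‖z‖ ^ Y.s := by positivity
        linarith
      have e2 : (1 + ‖z‖ ^ Y.s) ^ k ≤ ((1 + ‖z‖ ^ Y.s) ^ c₀) ^ l := by
        calc (1 + ‖z‖ ^ Y.s) ^ k = (1 + ‖z‖ ^ Y.s) ^ (k : ℝ) := (Real.rpow_natCast _ _).symm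
          _ ≤ (1 + ‖z‖ ^ Y.s) ^ (c₀ * l) := Real.rpow_le_rpow_of_exponent_le hbase hlt.le
          _ = ((1 + ‖z‖ ^ Y.s) ^ c₀) ^ l := by
              rw [Real.rpow_mul (by linarith), Real.rpow_natCast]
      have e3 : ‖z‖ ^ l * (C₀ * (((Y.s : ℝ) + 1) * ((l : ℝ) + 1)) ^ p * (1 + ‖z‖ ^ Y.s) ^ k) ≤
          C₀ * (((Y.s : ℝ) + 1) * ((l : ℝ) + 1)) ^ p * B ^ l := by
        rw [hB, mul_pow ‖z‖]
        calc ‖z‖ ^ l * (C₀ * (((Y.s : ℝ) + 1) * ((l : ℝ) + 1)) ^ p * (1 + ‖z‖ ^ Y.s) ^ k)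
            = C₀ * (((Y.s : ℝ) + 1) * ((l : ℝ) + 1)) ^ p * (‖z‖ ^ l * (1 + ‖z‖ ^ Y.s) ^ k) := by ring
          _ ≤ _ := by gcongr
      rw [hsplit, norm_mul, norm_pow]
      have e4 := mul_le_mul_of_nonneg_left e0 (show 0 ≤ ‖z‖ ^ l by positivity)
      linarith
    · have hge : c₀ * l ≤ k := not_lt.1 hlt
      rw [add_zero, hsplit, norm_mul, norm_pow]
      have e0 := rp_bound (hrep w hwE) (z ^ Y.s) h3 h2
      rw [← hk] at e0
      have e1 : ‖z‖ ^ l ≤ (x * Real.exp (c₀ * δ)) ^ l := pow_le_pow_left₀ (norm_nonneg _) h1 _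
      have e4 : Real.exp (c₀ * δ) ^ l * Real.exp (-δ) ^ k ≤ 1 := by
        rw [← Real.exp_nat_mul, ← Real.exp_nat_mul, ← Real.exp_add]
        rw [Real.exp_le_one_iff]
        have : c₀ * l * δ ≤ k * δ := mul_le_mul_of_nonneg_right hge hδ
        linarith
      calc ‖z‖ ^ l * ‖∑ U ∈ (Sl Y L w).powerset, (F (fl w U) : ℂ) * (z ^ Y.s) ^ U.card‖
          ≤ (x * Real.exp (c₀ * δ)) ^ l * (M w * ((1 + x ^ Y.s) * Real.exp (-δ)) ^ k) :=
            mul_le_mul e1 e0 (norm_nonneg _) (by positivity)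
        _ = M w * x ^ l * (1 + x ^ Y.s) ^ k * (Real.exp (c₀ * δ) ^ l * Real.exp (-δ) ^ k) := by
            rw [mul_pow, mul_pow]; ring
        _ ≤ M w * x ^ l * (1 + x ^ Y.s) ^ k * 1 := mul_le_mul_of_nonneg_left e4 hx1
        _ = _ := mul_one _
  have hMst : ∀ n, ∀ w ∈ Y.K n, 0 ≤ M (st w) := fun n w _ => hM _
  have hfirst : ∑ w ∈ Co Y L N, M w * x ^ Y.len w * (1 + x ^ Y.s) ^ (Sl Y L w).card ≤
      ∑' n, b n * x ^ n := by
    rw [MG_eq h]
    have h6 := grp (fun w => M (st w)) hMst b hMs (TG Y fl L N) 0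
      (fun w hw => ⟨TG_mem h hw, Nat.zero_le _⟩) x hx hs
    simpa only [Nat.add_zero] using h6
  have hsec : ∑ w ∈ Co Y L N,
      (if ((Sl Y L w).card : ℝ) < c₀ * Y.len w then
        C₀ * (((Y.s : ℝ) + 1) * ((Y.len w : ℝ) + 1)) ^ p * B ^ Y.len w else 0) ≤
      ∑ m ∈ range (N + 1), (((Y.K m).filter
        (fun w => ((Sl Y L w).card : ℝ) < c₀ * m)).card : ℝ) *
        (C₀ * (((Y.s : ℝ) + 1) * ((m : ℝ) + 1)) ^ p * B ^ m) := by
    rw [← Finset.sum_filter]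
    have hdisj : Set.PairwiseDisjoint (↑(range (N + 1)) : Set ℕ) (fun m => (Y.K m).filter
        (fun w => ((Sl Y L w).card : ℝ) < c₀ * m)) := by
      intro m _ m' _ hne
      rw [Function.onFun, Finset.disjoint_left]
      intro w hw hw'
      rw [Finset.mem_filter] at hw hw'
      exact hne ((Y.len_K _ _ hw.1).symm.trans (Y.len_K _ _ hw'.1))
    have hinner : ∑ m ∈ range (N + 1), (((Y.K m).filter
        (fun w => ((Sl Y L w).card : ℝ) < c₀ * m)).card : ℝ) *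
        (C₀ * (((Y.s : ℝ) + 1) * ((m : ℝ) + 1)) ^ p * B ^ m) =
        ∑ w ∈ (range (N + 1)).biUnion (fun m => (Y.K m).filter
        (fun w => ((Sl Y L w).card : ℝ) < c₀ * m)),
          C₀ * (((Y.s : ℝ) + 1) * ((Y.len w : ℝ) + 1)) ^ p * B ^ Y.len w := by
      rw [Finset.sum_biUnion hdisj]
      refine Finset.sum_congr rfl (fun m _ => ?_)
      rw [← nsmul_eq_mul, ← sum_const]
      refine Finset.sum_congr rfl (fun w hw => ?_)
      rw [Y.len_K _ _ (Finset.mem_filter.1 hw).1]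
    rw [hinner]
    refine Finset.sum_le_sum_of_subset_of_nonneg ?_ ?_
    · intro w hw
      rw [Finset.mem_filter] at hw
      obtain ⟨hw1, hw2⟩ := hCo w hw.1
      rw [Finset.mem_biUnion]
      exact ⟨Y.len w, Finset.mem_range.2 (by omega), Finset.mem_filter.2 ⟨hw1, hw.2⟩⟩
    · intro w hw _
      positivity
  unfold PG
  calc ‖∑ w ∈ Co Y L N, ∑ U ∈ (Sl Y L w).powerset,
        (F (fl w U) : ℂ) * z ^ (Y.len w + Y.s * U.card)‖
      ≤ ∑ w ∈ Co Y L N, ‖∑ U ∈ (Sl Y L w).powerset,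
        (F (fl w U) : ℂ) * z ^ (Y.len w + Y.s * U.card)‖ := norm_sum_le _ _
    _ ≤ ∑ w ∈ Co Y L N, (M w * x ^ Y.len w * (1 + x ^ Y.s) ^ (Sl Y L w).card +
      (if ((Sl Y L w).card : ℝ) < c₀ * Y.len w then
        C₀ * (((Y.s : ℝ) + 1) * ((Y.len w : ℝ) + 1)) ^ p * B ^ Y.len w else 0)) :=
        Finset.sum_le_sum hterm
    _ = ∑ w ∈ Co Y L N, M w * x ^ Y.len w * (1 + x ^ Y.s) ^ (Sl Y L w).card +
      ∑ w ∈ Co Y L N, (if ((Sl Y L w).card : ℝ) < c₀ * Y.len w then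
        C₀ * (((Y.s : ℝ) + 1) * ((Y.len w : ℝ) + 1)) ^ p * B ^ Y.len w else 0) :=
        Finset.sum_add_distrib
    _ ≤ _ := add_le_add hfirst hsec

end

end Run7.h106.AG
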